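import Mathlib
import Pool.Agent.Q72.QTI.Defs

/-!
# The Lempert function (with `tanh⁻¹`)
-/

set_option autoImplicit false

open Metric Set Filter Topology

namespace Q72.Shell

variable {E : Type*} [NormedAddCommGroup E] [NormedSpace ℂ E]

/-- The Lempert function: the infimum of `tanh⁻¹ |α|` over all holomorphic discs
`φ : 𝔻 → D` with `φ 0 = z` and `φ α = w`. -/
noncomputable def lempert (D : Set E) (z w : E) : ℝ :=
  sInf {r : ℝ | ∃ (φ : ℂ → E) (α : ℂ), DifferentiableOn ℂ φ (ball 0 1) ∧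
    MapsTo φ (ball 0 1) D ∧ ‖α‖ < 1 ∧ φ 0 = z ∧ φ α = w ∧ r = Real.artanh ‖α‖}

end Q72.Shell
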