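import Mathlib
import Pool.Agent.Q72.Shell.Defs

set_option autoImplicit false

open Metric Set Filter Topology

namespace Q72.Shell

variable {E : Type*} [NormedAddCommGroup E] [NormedSpace ℂ E] {D : Set E}

/-- a disc in `D` through `z` (at `0`) and `w` (at a point of modulus `t`) -/
def Through (D : Set E) (z w : E) (t : ℝ) : Prop :=
  ∃ (φ : ℂ → E) (α : ℂ), DifferentiableOn ℂ φ (ball 0 1) ∧ MapsTo φ (ball 0 1) D ∧
    ‖α‖ < 1 ∧ φ 0 = z ∧ φ α = w ∧ t = ‖α‖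

/-- a curve gives a disc -/
lemma through_of_curve (hD : IsOpen D) {Γ : ℂ → E} (hΓ : Differentiable ℂ Γ)
    (hx : ∀ x ∈ Icc (-2 : ℝ) 2, Γ x ∈ D) : ∃ t, Through D (Γ 0) (Γ 1) t := by
  set K : Set ℂ := (fun x : ℝ => (x : ℂ)) '' Icc (-2 : ℝ) 2 with hK
  have hKc : IsCompact K := isCompact_Icc.image Complex.continuous_ofReal
  have hKs : K ⊆ Γ ⁻¹' D := by
    rintro _ ⟨x, hxI, rfl⟩
    exact hx x hxI
  obtain ⟨h, hh, hthick⟩ := hKc.exists_thickening_subset_open (hD.preimage hΓ.continuous) hKs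
  set κ : ℝ := 2 * h / Real.pi with hκ
  have hκ0 : 0 < κ := by have := Real.pi_pos; positivity
  have hκh : κ * (Real.pi / 2) = h := by
    rw [hκ]; have := Real.pi_pos; field_simp
  set Y : ℝ := Real.exp (1 / κ) with hY
  have hY1 : 1 < Y := by
    rw [hY]; exact Real.one_lt_exp_iff.2 (by positivity)
  have hlogY : Real.log Y = 1 / κ := by rw [hY, Real.log_exp]
  set r : ℝ := (Y ^ 2 - 1) / (Y ^ 2 + 1) with hr
  have hY2 : 1 < Y ^ 2 := by nlinarith
  have hr0 : 0 < r := by rw [hr]; apply div_pos <;> linarith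
  have hr1 : r < 1 := by rw [hr, div_lt_one (by linarith)]; linarith
  have hrY : (1 + r) / (1 - r) = Y ^ 2 := by
    rw [div_eq_iff (by linarith), hr]
    field_simp
    ring
  set q : ℂ → ℂ := fun ζ => (1 + ζ) / (1 - ζ) with hq
  have hne : ∀ ζ : ℂ, ‖ζ‖ < 1 → (1 : ℂ) - ζ ≠ 0 := by
    intro ζ hζ h0
    rw [← sub_eq_zero.1 h0, norm_one] at hζ
    exact lt_irrefl _ hζ
  have hne' : ∀ ζ : ℂ, ‖ζ‖ < 1 → (1 : ℂ) + ζ ≠ 0 := by
    intro ζ hζ h0
    have : ζ = -1 := by linear_combination h0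
    rw [this, norm_neg, norm_one] at hζ
    exact lt_irrefl _ hζ
  have hqre : ∀ ζ : ℂ, ‖ζ‖ < 1 → 0 < (q ζ).re := by
    intro ζ hζ
    simp only [hq]
    rw [Complex.div_re, ← add_div]
    apply div_pos _ (Complex.normSq_pos.2 (hne ζ hζ))
    simp only [Complex.add_re, Complex.one_re, Complex.sub_re, Complex.add_im,
      Complex.one_im, Complex.sub_im]
    have h6 : ζ.re ^ 2 + ζ.im ^ 2 = ‖ζ‖ ^ 2 := by
      rw [Complex.sq_norm, Complex.normSq_apply]; ring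
    nlinarith [norm_nonneg ζ]
  have hqn : ∀ ζ : ℂ, ‖ζ‖ ≤ r → |Real.log ‖q ζ‖| ≤ 2 / κ := by
    intro ζ hζ
    have hζ1 : ‖ζ‖ < 1 := by linarith
    have h1 : ‖q ζ‖ ≤ Y ^ 2 := by
      simp only [hq]
      rw [norm_div, ← hrY, div_le_div_iff₀ (norm_pos_iff.2 (hne ζ hζ1)) (by linarith)]
      have h2 : ‖1 + ζ‖ ≤ 1 + r := (norm_add_le _ _).trans (by rw [norm_one]; linarith)
      have h3 : 1 - r ≤ ‖1 - ζ‖ := by
        have := norm_sub_norm_le (1 : ℂ) ζ
        rw [norm_one] at this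
        linarith
      nlinarith
    have h2 : (Y ^ 2)⁻¹ ≤ ‖q ζ‖ := by
      simp only [hq]
      rw [norm_div, ← hrY, inv_div, div_le_div_iff₀ (by linarith) (norm_pos_iff.2 (hne ζ hζ1))]
      have h2 : ‖1 - ζ‖ ≤ 1 + r := (norm_sub_le _ _).trans (by rw [norm_one]; linarith)
      have h3 : 1 - r ≤ ‖1 + ζ‖ := by
        have := norm_sub_norm_le (1 : ℂ) (-ζ)
        rw [norm_one, norm_neg, sub_neg_eq_add] at this
        linarith
      nlinarith
    have h3 : Real.log (Y ^ 2) = 2 / κ := by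
      rw [Real.log_pow, hlogY]; push_cast; ring
    have h4 : 0 < ‖q ζ‖ := lt_of_lt_of_le (by positivity) h2
    rw [abs_le]
    constructor
    · have := Real.log_le_log (by positivity) h2
      rw [Real.log_inv, h3] at this
      exact this
    · rw [← h3]
      exact Real.log_le_log h4 h1
  set σ : ℂ → ℂ := fun ζ => (κ : ℂ) * Complex.log (q (r * ζ)) with hσ
  have hrn : ∀ ζ : ℂ, ‖ζ‖ < 1 → ‖(r : ℂ) * ζ‖ < r := by
    intro ζ hζ
    rw [norm_mul, Complex.norm_real, Real.norm_of_nonneg hr0.le]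
    nlinarith
  have hσm : ∀ ζ : ℂ, ‖ζ‖ < 1 → σ ζ ∈ Γ ⁻¹' D := by
    intro ζ hζ
    apply hthick
    rw [mem_thickening_iff]
    have h1 := hrn ζ hζ
    have h2 := hqn _ h1.le
    have h3 := hqre _ (h1.trans hr1)
    have hre : (σ ζ).re = κ * Real.log ‖q (r * ζ)‖ := by
      simp only [hσ]
      rw [Complex.re_ofReal_mul, Complex.log_re]
    have him : (σ ζ).im = κ * (q (r * ζ)).arg := by
      simp only [hσ]
      rw [Complex.im_ofReal_mul, Complex.log_im]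
    refine ⟨((σ ζ).re : ℂ), ⟨(σ ζ).re, ?_, rfl⟩, ?_⟩
    · rw [hre, mem_Icc, ← abs_le, abs_mul, abs_of_pos hκ0]
      calc κ * |Real.log ‖q (r * ζ)‖| ≤ κ * (2 / κ) := by gcongr
        _ = 2 := by field_simp
    · have e1 : σ ζ - ((σ ζ).re : ℂ) = ((σ ζ).im : ℂ) * Complex.I := by
        apply Complex.ext <;> simp
      rw [dist_eq_norm, e1, norm_mul, Complex.norm_I, mul_one, Complex.norm_real, him,
        Real.norm_eq_abs, abs_mul, abs_of_pos hκ0, ← hκh]
      have h4 : |(q (r * ζ)).arg| < Real.pi / 2 :=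
        Complex.abs_arg_lt_pi_div_two_iff.2 (Or.inl h3)
      gcongr
  have hσd : DifferentiableOn ℂ σ (ball 0 1) := by
    intro ζ hζ
    have hζ' : ‖ζ‖ < 1 := by simpa using hζ
    have h1 := hrn ζ hζ'
    apply DifferentiableAt.differentiableWithinAt
    simp only [hσ]
    apply DifferentiableAt.const_mul
    have h2 : DifferentiableAt ℂ (fun ζ : ℂ => q (r * ζ)) ζ := by
      simp only [hq]
      exact (by fun_prop : DifferentiableAt ℂ (fun ζ : ℂ => 1 + (r : ℂ) * ζ) ζ).fun_div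
        (by fun_prop) (hne _ (h1.trans hr1))
    exact h2.clog (Or.inl (hqre _ (h1.trans hr1)))
  set α : ℝ := (Y ^ 2 + 1) / (Y + 1) ^ 2 with hα
  have hα0 : 0 < α := by rw [hα]; positivity
  have hα1 : α < 1 := by
    rw [hα, div_lt_one (by positivity)]
    nlinarith
  have hαn : ‖(α : ℂ)‖ < 1 := by
    rw [Complex.norm_real, Real.norm_of_nonneg hα0.le]; exact hα1
  have hσ0 : σ 0 = 0 := by simp [hσ, hq]
  have hσ1 : σ α = 1 := by
    have e1 : q (r * α) = (Y : ℂ) := by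
      simp only [hq]
      have e2 : (r : ℝ) * α = (Y - 1) / (Y + 1) := by
        rw [hr, hα]
        have : Y ^ 2 - 1 = (Y - 1) * (Y + 1) := by ring
        rw [this]
        field_simp
      have e3 : (r : ℂ) * α = ((Y - 1) / (Y + 1) : ℝ) := by rw [← e2]; push_cast; ring
      rw [e3]
      have hY0 : (Y : ℂ) + 1 ≠ 0 := by exact_mod_cast (by linarith : Y + 1 ≠ 0)
      push_cast
      have e4 : (1 : ℂ) + (Y - 1) / (Y + 1) = 2 * Y / (Y + 1) := by field_simp; ring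
      have e5 : (1 : ℂ) - (Y - 1) / (Y + 1) = 2 / (Y + 1) := by field_simp; ring
      rw [e4, e5]
      field_simp
    simp only [hσ]
    rw [e1, ← Complex.ofReal_log (by linarith), hlogY, ← Complex.ofReal_mul]
    rw [mul_one_div_cancel hκ0.ne']
    simp
  refine ⟨‖(α : ℂ)‖, fun ζ => Γ (σ ζ), α, hΓ.comp_differentiableOn hσd, fun ζ hζ => ?_, hαn,
    ?_, ?_, rfl⟩
  · exact hσm ζ (by simpa using hζ)
  · show Γ (σ 0) = Γ 0
    rw [hσ0]
  · show Γ (σ α) = Γ 1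
    rw [hσ1]

/-- near the diagonal -/
lemma through_diag {z : E} {R : ℝ} (hR : 0 < R) (hb : ball z R ⊆ D) {ε : ℝ} (hε : 0 < ε)
    (hε1 : ε < 1) {z' w' : E} (hz : ‖z' - z‖ < R / 2) (hw : ‖w' - z'‖ < ε * (R / 2)) :
    Through D z' w' ε := by
  refine ⟨fun ζ => z' + ζ • ((ε : ℂ)⁻¹ • (w' - z')), (ε : ℂ), by fun_prop, ?_, ?_, ?_, ?_, ?_⟩
  · intro ζ hζ
    have hζ' : ‖ζ‖ < 1 := by simpa using hζ
    apply hb
    rw [mem_ball, dist_eq_norm]
    have h1 : ‖ζ • ((ε : ℂ)⁻¹ • (w' - z'))‖ ≤ R / 2 := by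
      rw [norm_smul, norm_smul, norm_inv, Complex.norm_real, Real.norm_of_nonneg hε.le]
      have h2 : ε⁻¹ * ‖w' - z'‖ ≤ R / 2 := by
        rw [inv_mul_le_iff₀ hε]; exact hw.le
      have h3 : 0 ≤ ε⁻¹ * ‖w' - z'‖ := by positivity
      nlinarith [norm_nonneg ζ]
    calc ‖z' + ζ • ((ε : ℂ)⁻¹ • (w' - z')) - z‖ = ‖(z' - z) + ζ • ((ε : ℂ)⁻¹ • (w' - z'))‖ := by
          congr 1; abel
      _ ≤ _ := norm_add_le _ _
      _ < R / 2 + R / 2 := add_lt_add_of_lt_of_le hz h1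
      _ = R := by ring
  · rw [Complex.norm_real, Real.norm_of_nonneg hε.le]; exact hε1
  · simp
  · show z' + (ε : ℂ) • ((ε : ℂ)⁻¹ • (w' - z')) = w'
    rw [smul_smul, mul_inv_cancel₀ (by exact_mod_cast hε.ne'), one_smul]
    abel
  · rw [Complex.norm_real, Real.norm_of_nonneg hε.le]

end Q72.Shell
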