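import Mathlib
import Pool.Agent.Q72.Shell.Disc

set_option autoImplicit false

open Metric Set Filter Topology

namespace Q72.Shell

/-- a quantitative Schwarz-Pick lemma -/
lemma sp_scalar {h : ℂ → ℂ} (hd : DifferentiableOn ℂ h (ball 0 1))
    (hm : ∀ ζ ∈ ball (0 : ℂ) 1, ‖h ζ‖ < 1) {r : ℝ} (hr0 : 0 ≤ r) (hr : r < 1) {ζ : ℂ}
    (hζ : ‖ζ‖ ≤ r) : (1 - r) * (1 - ‖h 0‖) / 4 ≤ 1 - ‖h ζ‖ := by
  set b : ℂ := h 0 with hb
  have h00 : (0 : ℂ) ∈ ball (0 : ℂ) 1 := by simp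
  have hb1 : ‖b‖ < 1 := hm 0 h00
  set F : ℂ → ℂ := fun ζ => (h ζ - b) / (1 - (starRingEnd ℂ) b * h ζ) with hF
  have hne : ∀ ζ ∈ ball (0 : ℂ) 1, (1 : ℂ) - (starRingEnd ℂ) b * h ζ ≠ 0 := by
    intro ζ hζ h1
    have h2 := hm ζ hζ
    have h3 : ‖(starRingEnd ℂ) b * h ζ‖ < 1 := by
      rw [norm_mul, RCLike.norm_conj]
      nlinarith [norm_nonneg (h ζ), norm_nonneg b]
    rw [← sub_eq_zero.1 h1, norm_one] at h3
    exact lt_irrefl _ h3
  have hFd : DifferentiableOn ℂ F (ball 0 1) := by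
    intro z hz
    exact ((hd z hz).sub_const _).fun_div (((hd z hz).const_mul _).const_sub _) (hne z hz)
  have hF0 : F 0 = 0 := by simp [hF, hb]
  have key : ∀ z : ℂ, ‖(1 : ℂ) - (starRingEnd ℂ) b * z‖ ^ 2 - ‖z - b‖ ^ 2 =
      (1 - ‖b‖ ^ 2) * (1 - ‖z‖ ^ 2) := by
    intro z
    rw [Complex.sq_norm, Complex.sq_norm, Complex.sq_norm, Complex.sq_norm, Complex.normSq_apply,
      Complex.normSq_apply, Complex.normSq_apply, Complex.normSq_apply]
    simp only [Complex.sub_re, Complex.sub_im, Complex.one_re, Complex.one_im, Complex.mul_re,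
      Complex.mul_im, Complex.conj_re, Complex.conj_im]
    ring
  have hFm : MapsTo F (ball 0 1) (closedBall 0 1) := by
    intro z hz
    rw [mem_closedBall, dist_zero_right]
    simp only [hF]
    rw [norm_div, div_le_one (norm_pos_iff.2 (hne z hz))]
    have h1 := key (h z)
    have h2 := hm z hz
    have h3 : 0 ≤ (1 - ‖b‖ ^ 2) * (1 - ‖h z‖ ^ 2) := by
      apply mul_nonneg
      · nlinarith [norm_nonneg b]
      · nlinarith [norm_nonneg (h z)]
    exact abs_le_of_sq_le_sq' (by linarith) (norm_nonneg _) |>.2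
  have hζ1 : ‖ζ‖ < 1 := by linarith
  have hζb : ζ ∈ ball (0 : ℂ) 1 := by simpa using hζ1
  have h1 := Complex.norm_le_norm_of_mapsTo_ball hFd hFm hF0 hζ1
  have h2 : ‖h ζ - b‖ ≤ r * ‖(1 : ℂ) - (starRingEnd ℂ) b * h ζ‖ := by
    have h3 : ‖F ζ‖ ≤ r := h1.trans hζ
    simp only [hF] at h3
    rw [norm_div, div_le_iff₀ (norm_pos_iff.2 (hne ζ hζb))] at h3
    exact h3
  have h5 := hm ζ hζb
  have h6 : 1 - ‖b‖ ≤ ‖(1 : ℂ) - (starRingEnd ℂ) b * h ζ‖ := by
    have := norm_sub_norm_le (1 : ℂ) ((starRingEnd ℂ) b * h ζ)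
    rw [norm_one, norm_mul, RCLike.norm_conj] at this
    nlinarith [norm_nonneg b, norm_nonneg (h ζ)]
  have h7 := key (h ζ)
  set A := ‖(1 : ℂ) - (starRingEnd ℂ) b * h ζ‖ with hA
  set s := ‖h ζ‖ with hs
  set β := ‖b‖ with hβ
  have hβ0 : 0 ≤ β := norm_nonneg _
  have hs0 : 0 ≤ s := norm_nonneg _
  have h8 : ‖h ζ - b‖ ^ 2 ≤ r ^ 2 * A ^ 2 := by
    have := pow_le_pow_left₀ (norm_nonneg _) h2 2
    rwa [mul_pow] at this
  have h9 : (1 - β) ^ 2 ≤ A ^ 2 := pow_le_pow_left₀ (by linarith) h6 2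
  have h10 : (1 - r ^ 2) * (1 - β) ^ 2 ≤ (1 - β ^ 2) * (1 - s ^ 2) := by
    have hr2 : 0 ≤ 1 - r ^ 2 := by nlinarith
    nlinarith
  -- divide by `1 - β`
  have h11 : (1 - r ^ 2) * (1 - β) ≤ (1 + β) * (1 - s ^ 2) := by
    have hpos : 0 < 1 - β := by linarith
    have e1 : (1 - r ^ 2) * (1 - β) ^ 2 = (1 - β) * ((1 - r ^ 2) * (1 - β)) := by ring
    have e2 : (1 - β ^ 2) * (1 - s ^ 2) = (1 - β) * ((1 + β) * (1 - s ^ 2)) := by ring
    rw [e1, e2] at h10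
    exact le_of_mul_le_mul_left h10 hpos
  have h12 : (1 + β) * (1 - s ^ 2) ≤ 4 * (1 - s) := by
    have e1 : (1 + β) * (1 - s ^ 2) = (1 + β) * (1 + s) * (1 - s) := by ring
    rw [e1]
    have : (1 + β) * (1 + s) ≤ 4 := by nlinarith
    have h13 : 0 ≤ 1 - s := by linarith
    nlinarith
  have h13 : (1 - r) * (1 - β) ≤ (1 - r ^ 2) * (1 - β) := by
    have h14 : 0 ≤ 1 - β := by linarith
    have : 1 - r ≤ 1 - r ^ 2 := by nlinarith
    nlinarith
  linarith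

variable {E : Type*} [NormedAddCommGroup E] [InnerProductSpace ℂ E]

lemma sp_vec {f : ℂ → E} (hd : DifferentiableOn ℂ f (ball 0 1))
    (hm : ∀ ζ ∈ ball (0 : ℂ) 1, ‖f ζ‖ < 2) {η : ℝ} (hη : ‖f 0‖ ≤ 2 - η) (hη0 : 0 < η)
    (hη1 : η ≤ 1) {r : ℝ} (hr0 : 0 ≤ r)
    (hr : r < 1) {ζ : ℂ} (hζ : ‖ζ‖ ≤ r) : ‖f ζ‖ ≤ 2 - (1 - r) * η / 4 := by
  by_cases h0 : f ζ = 0
  · rw [h0, norm_zero]
    nlinarith
  have hn : ‖f ζ‖ ≠ 0 := norm_ne_zero_iff.2 h0
  set u : E := (‖f ζ‖ : ℂ)⁻¹ • f ζ with hu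
  have hun : ‖u‖ = 1 := by
    rw [hu, norm_smul, norm_inv, Complex.norm_real, norm_norm, inv_mul_cancel₀ hn]
  have hin : ∀ x : E, ‖inner ℂ u x‖ ≤ ‖x‖ := by
    intro x
    have := norm_inner_le_norm (𝕜 := ℂ) u x
    rwa [hun, one_mul] at this
  have huf : inner ℂ u (f ζ) = (‖f ζ‖ : ℂ) := by
    have hnc : (‖f ζ‖ : ℂ) ≠ 0 := by exact_mod_cast hn
    rw [hu, inner_smul_left, inner_self_eq_norm_sq_to_K, map_inv₀, Complex.conj_ofReal]
    field_simp
    rfl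
  have hd' : DifferentiableOn ℂ (fun ζ => inner ℂ u (f ζ) / 2) (ball 0 1) := by
    have h1 : DifferentiableOn ℂ (fun ζ => inner ℂ u (f ζ)) (ball 0 1) :=
      (innerSL ℂ u).differentiable.comp_differentiableOn hd
    simp only [div_eq_mul_inv]
    exact h1.mul_const _
  have h1 := sp_scalar hd' (fun z hz => by
    rw [norm_div, Complex.norm_ofNat, div_lt_one two_pos]
    exact lt_of_le_of_lt (hin _) (hm z hz)) hr0 hr hζ
  rw [huf, norm_div, norm_div, Complex.norm_ofNat, Complex.norm_real, norm_norm] at h1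
  have h2 : ‖inner ℂ u (f 0)‖ ≤ 2 - η := (hin _).trans hη
  have h3 : (1 - r) * (η / 2) / 4 ≤ (1 - r) * (1 - ‖inner ℂ u (f 0)‖ / 2) / 4 := by
    have : 0 ≤ 1 - r := by linarith
    gcongr
    linarith
  linarith

/-- the shell -/
def shell (E : Type*) [NormedAddCommGroup E] : Set E := {x | 1 < ‖x‖ ∧ ‖x‖ < 2}

lemma shell_open : IsOpen (shell E) :=
  (isOpen_lt continuous_const continuous_norm).inter (isOpen_lt continuous_norm continuous_const)

/-- normalized linear functional -/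
noncomputable def lf (z x : E) : ℂ := inner ℂ z x / (‖z‖ : ℂ) ^ 2

lemma lf_self {z : E} (hz : z ≠ 0) : lf z z = 1 := by
  unfold lf
  rw [inner_self_eq_norm_sq_to_K]
  have : (‖z‖ : ℂ) ≠ 0 := by exact_mod_cast norm_ne_zero_iff.2 hz
  exact div_self (pow_ne_zero 2 this)

lemma lf_norm {z x : E} (hz : z ≠ 0) : ‖lf z x‖ ≤ ‖x‖ / ‖z‖ := by
  unfold lf
  have hz' : 0 < ‖z‖ := norm_pos_iff.2 hz
  rw [norm_div, norm_pow, Complex.norm_real, norm_norm, div_le_div_iff₀ (by positivity) hz']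
  have := norm_inner_le_norm (𝕜 := ℂ) z x
  calc ‖inner ℂ z x‖ * ‖z‖ ≤ (‖z‖ * ‖x‖) * ‖z‖ := by gcongr
    _ = ‖x‖ * ‖z‖ ^ 2 := by ring

lemma lf_diff (z : E) : Differentiable ℂ (lf z) := by
  unfold lf
  simp only [div_eq_mul_inv]
  exact ((innerSL ℂ z).differentiable).mul_const _

/-- the pushing map -/
noncomputable def push (e : ℝ) (N : ℕ) (z w x : E) : E :=
  x + ((e : ℂ) * ((1 - lf z x ^ N) * (1 - lf w x ^ N))) • x

lemma push_diff (e : ℝ) (N : ℕ) (z w : E) : Differentiable ℂ (push e N z w) := by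
  unfold push
  apply Differentiable.fun_add (by fun_prop : Differentiable ℂ fun x : E => x)
  apply Differentiable.fun_smul _ (by fun_prop : Differentiable ℂ fun x : E => x)
  apply Differentiable.const_mul
  exact (((lf_diff z).fun_pow N).const_sub 1).fun_mul (((lf_diff w).fun_pow N).const_sub 1)

lemma push_z (e : ℝ) (N : ℕ) {z w : E} (hz : z ≠ 0) : push e N z w z = z := by
  unfold push
  rw [lf_self hz, one_pow, sub_self, zero_mul, mul_zero, zero_smul, add_zero]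

lemma push_w (e : ℝ) (N : ℕ) {z w : E} (hw : w ≠ 0) : push e N z w w = w := by
  unfold push
  rw [lf_self hw, one_pow, sub_self, mul_zero, mul_zero, zero_smul, add_zero]

lemma push_spec {η δ : ℝ} (hη : 0 < η) (hη1 : η ≤ 1) (hδ : 0 < δ) :
    ∃ (e : ℝ) (N : ℕ) (c : ℝ), 0 < c ∧ ∀ z w : E, 1 + η ≤ ‖z‖ → 1 + η ≤ ‖w‖ →
      ∀ x : E, 1 ≤ ‖x‖ → ‖x‖ ≤ 2 - δ →
        1 + c ≤ ‖push e N z w x‖ ∧ ‖push e N z w x‖ ≤ 2 - c := by
  set q : ℝ := (1 + η / 2) / (1 + η) with hq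
  have hq0 : 0 < q := by positivity
  have hq1 : q < 1 := by rw [hq, div_lt_one (by linarith)]; linarith
  obtain ⟨N, hN⟩ := exists_pow_lt_of_lt_one (show (0 : ℝ) < 1 / 10 by norm_num) hq1
  set C : ℝ := (1 + 2 ^ N) ^ 2 with hC
  have hC1 : 1 ≤ C := by
    rw [hC]
    have : (0 : ℝ) < 2 ^ N := by positivity
    nlinarith
  set e : ℝ := min (η / (8 * C)) (δ / (4 * C)) with he
  have he0 : 0 < e := by rw [he]; apply lt_min <;> positivity
  have he1 : e * C ≤ η / 8 := by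
    have : e ≤ η / (8 * C) := min_le_left _ _
    calc e * C ≤ η / (8 * C) * C := by gcongr
      _ = η / 8 := by field_simp
  have he2 : e * C ≤ δ / 4 := by
    have : e ≤ δ / (4 * C) := min_le_right _ _
    calc e * C ≤ δ / (4 * C) * C := by gcongr
      _ = δ / 4 := by field_simp
  refine ⟨e, N, min (e / 2) (min (η / 4) (δ / 2)), by positivity, ?_⟩
  intro z w hz hw x hx1 hx2
  have hz0 : z ≠ 0 := norm_pos_iff.1 (by linarith)
  have hw0 : w ≠ 0 := norm_pos_iff.1 (by linarith)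
  set c1 : ℂ := (1 - lf z x ^ N) * (1 - lf w x ^ N) with hc1
  have hpush : push e N z w x = (1 + (e : ℂ) * c1) • x := by
    unfold push
    rw [add_smul, one_smul]
  have hl : ∀ y : E, 1 + η ≤ ‖y‖ → ‖lf y x‖ ≤ 2 := by
    intro y hy
    have hy0 : y ≠ 0 := norm_pos_iff.1 (by linarith)
    refine (lf_norm hy0).trans ?_
    rw [div_le_iff₀ (by linarith)]
    linarith
  have hcC : ‖c1‖ ≤ C := by
    have h1 : ∀ y : E, 1 + η ≤ ‖y‖ → ‖1 - lf y x ^ N‖ ≤ 1 + 2 ^ N := by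
      intro y hy
      refine (norm_sub_le _ _).trans ?_
      rw [norm_one, norm_pow]
      have := hl y hy
      gcongr
    rw [hc1, norm_mul, hC, sq]
    exact mul_le_mul (h1 z hz) (h1 w hw) (norm_nonneg _) (by positivity)
  have hmul : ‖push e N z w x‖ = ‖1 + (e : ℂ) * c1‖ * ‖x‖ := by rw [hpush, norm_smul]
  have hec : ‖(e : ℂ) * c1‖ ≤ e * C := by
    rw [norm_mul, Complex.norm_real, Real.norm_of_nonneg he0.le]
    gcongr
  constructor
  · by_cases hxr : ‖x‖ ≤ 1 + η / 2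
    · have h1 : ∀ y : E, 1 + η ≤ ‖y‖ → ‖lf y x ^ N‖ ≤ 1 / 10 := by
        intro y hy
        have hy0 : y ≠ 0 := norm_pos_iff.1 (by linarith)
        rw [norm_pow]
        have h2 : ‖lf y x‖ ≤ q := by
          refine (lf_norm hy0).trans ?_
          rw [hq, div_le_div_iff₀ (by linarith) (by linarith)]
          apply mul_le_mul hxr hy (by linarith) (by linarith)
        calc ‖lf y x‖ ^ N ≤ q ^ N := by gcongr
          _ ≤ 1 / 10 := hN.le
      have h2 : ‖c1 - 1‖ ≤ 1 / 2 := by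
        have e1 : c1 - 1 = -(lf z x ^ N) - lf w x ^ N + lf z x ^ N * lf w x ^ N := by
          rw [hc1]; ring
        rw [e1]
        refine (norm_add_le _ _).trans ?_
        have h3 := norm_sub_le (-(lf z x ^ N)) (lf w x ^ N)
        rw [norm_neg] at h3
        rw [norm_mul]
        have h4 := h1 z hz
        have h5 := h1 w hw
        nlinarith [norm_nonneg (lf z x ^ N), norm_nonneg (lf w x ^ N)]
      have h3 : 1 / 2 ≤ c1.re := by
        have h4 := Complex.abs_re_le_norm (c1 - 1)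
        rw [Complex.sub_re, Complex.one_re] at h4
        have h5 := (abs_le.1 (h4.trans h2)).1
        linarith
      have h4 : 1 + e / 2 ≤ ‖1 + (e : ℂ) * c1‖ := by
        have h5 := Complex.re_le_norm (1 + (e : ℂ) * c1)
        rw [Complex.add_re, Complex.one_re, Complex.re_ofReal_mul] at h5
        nlinarith
      rw [hmul]
      have h6 : min (e / 2) (min (η / 4) (δ / 2)) ≤ e / 2 := min_le_left _ _
      nlinarith [norm_nonneg (1 + (e : ℂ) * c1)]
    · push Not at hxr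
      have h4 : 1 - η / 8 ≤ ‖1 + (e : ℂ) * c1‖ := by
        have := norm_sub_norm_le (1 : ℂ) (-((e : ℂ) * c1))
        rw [norm_one, norm_neg, sub_neg_eq_add] at this
        linarith
      rw [hmul]
      have h6 : min (e / 2) (min (η / 4) (δ / 2)) ≤ η / 4 :=
        (min_le_right _ _).trans (min_le_left _ _)
      have h7 : (1 - η / 8) * (1 + η / 2) ≤ ‖1 + (e : ℂ) * c1‖ * ‖x‖ :=
        mul_le_mul h4 hxr.le (by positivity) (norm_nonneg _)
      nlinarith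
  · rw [hmul]
    have h4 : ‖1 + (e : ℂ) * c1‖ ≤ 1 + δ / 4 := by
      refine (norm_add_le _ _).trans ?_
      rw [norm_one]
      linarith
    have h6 : min (e / 2) (min (η / 4) (δ / 2)) ≤ δ / 2 :=
      (min_le_right _ _).trans (min_le_right _ _)
    have h7 : ‖1 + (e : ℂ) * c1‖ * ‖x‖ ≤ (1 + δ / 4) * (2 - δ) :=
      mul_le_mul h4 hx2 (norm_nonneg _) (by positivity)
    nlinarith

/-- **the uniform perturbation lemma** -/
lemma perturb {η r : ℝ} (hη : 0 < η) (hη1 : η ≤ 1) (hr0 : 0 < r) (hr : r < 1) :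
    ∃ κ > 0, ∀ z1 w1 z2 w2 : E, 1 + η ≤ ‖z1‖ → ‖z1‖ ≤ 2 - η → 1 + η ≤ ‖w1‖ →
      η ≤ ‖w1 - z1‖ → ‖z2 - z1‖ ≤ κ → ‖w2 - w1‖ ≤ κ → ∀ t, t < r →
        Through (shell E) z1 w1 t → Through (shell E) z2 w2 (t / r) := by
  set δ : ℝ := (1 - r) * η / 4 with hδ
  have hδ0 : 0 < δ := by
    have : 0 < 1 - r := by linarith
    positivity
  obtain ⟨e, N, c, hc, hpush⟩ := push_spec (E := E) hη hη1 hδ0
  -- lower bound for the parameter
  set lam0 : ℝ := η / 4 with hlam0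
  set κ : ℝ := c / 2 / (1 + 2 / lam0) with hκ
  have hκ0 : 0 < κ := by positivity
  refine ⟨κ, hκ0, ?_⟩
  rintro z1 w1 z2 w2 hz1 hz1' hw1 hzw hz2 hw2 t ht ⟨f, lam, hf, hfD, hlam, hf0, hflam, rfl⟩
  have hz10 : z1 ≠ 0 := norm_pos_iff.1 (by linarith)
  have hw10 : w1 ≠ 0 := norm_pos_iff.1 (by linarith)
  -- |lam| ≥ lam0
  have hlam' : lam0 ≤ ‖lam‖ := by
    have h1 := Complex.dist_le_div_mul_dist_of_mapsTo_ball (f := f) (c := 0) (R₁ := 1) (R₂ := 4)
      (z := lam) hf (fun ζ hζ => by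
        rw [mem_closedBall, dist_eq_norm]
        refine (norm_sub_le _ _).trans ?_
        have h2 := (hfD hζ).2
        have h3 := (hfD (show (0 : ℂ) ∈ ball (0 : ℂ) 1 by simp)).2
        linarith) (by simpa using hlam)
    rw [hf0, hflam, dist_eq_norm, dist_zero_right] at h1
    rw [hlam0]
    linarith
  have hlam00 : 0 < ‖lam‖ := by linarith
  have hlamne : lam ≠ 0 := norm_pos_iff.1 hlam00
  -- the new disc
  set μ : ℂ := lam / r with hμ
  have hμn : ‖μ‖ = ‖lam‖ / r := by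
    rw [hμ, norm_div, Complex.norm_real, Real.norm_of_nonneg hr0.le]
  have hμ1 : ‖μ‖ < 1 := by rw [hμn, div_lt_one hr0]; exact ht
  have hμ0 : lam0 ≤ ‖μ‖ := by
    rw [hμn, le_div_iff₀ hr0]
    nlinarith
  have hμne : μ ≠ 0 := norm_pos_iff.1 (by linarith)
  have hrζ : ∀ ζ : ℂ, ‖ζ‖ < 1 → ‖(r : ℂ) * ζ‖ ≤ r := by
    intro ζ hζ
    rw [norm_mul, Complex.norm_real, Real.norm_of_nonneg hr0.le]
    nlinarith
  set g : ℂ → E := fun ζ => push e N z1 w1 (f (r * ζ)) with hg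
  have hgd : DifferentiableOn ℂ g (ball 0 1) := by
    apply (push_diff e N z1 w1).comp_differentiableOn
    apply hf.comp (by fun_prop : DifferentiableOn ℂ (fun ζ : ℂ => (r : ℂ) * ζ) (ball 0 1))
    intro ζ hζ
    have hζ' : ‖ζ‖ < 1 := by simpa using hζ
    rw [mem_ball, dist_zero_right]
    exact lt_of_le_of_lt (hrζ ζ hζ') hr
  have hgb : ∀ ζ : ℂ, ‖ζ‖ < 1 → 1 + c ≤ ‖g ζ‖ ∧ ‖g ζ‖ ≤ 2 - c := by
    intro ζ hζ
    have h1 := hrζ ζ hζ
    have h2 : (r : ℂ) * ζ ∈ ball (0 : ℂ) 1 := by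
      rw [mem_ball, dist_zero_right]; exact lt_of_le_of_lt h1 hr
    apply hpush z1 w1 hz1 hw1 _ (hfD h2).1.le
    apply sp_vec hf (fun z hz => (hfD hz).2) (by rw [hf0]; exact hz1') hη hη1 hr0.le hr h1
  have hg0 : g 0 = z1 := by
    simp only [hg]
    rw [mul_zero, hf0, push_z e N hz10]
  have hgμ : g μ = w1 := by
    simp only [hg]
    have : (r : ℂ) * μ = lam := by
      rw [hμ]
      have : (r : ℂ) ≠ 0 := by exact_mod_cast hr0.ne'
      field_simp
    rw [this, hflam, push_w e N hw10]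
  refine ⟨fun ζ => g ζ + ((1 - ζ / μ) • (z2 - z1) + (ζ / μ) • (w2 - w1)), μ, ?_, ?_, hμ1, ?_, ?_,
    ?_⟩
  · apply hgd.fun_add
    simp only [div_eq_mul_inv]
    fun_prop
  · intro ζ hζ
    have hζ' : ‖ζ‖ < 1 := by simpa using hζ
    obtain ⟨h1, h2⟩ := hgb ζ hζ'
    have h3 : ‖ζ / μ‖ ≤ 1 / lam0 := by
      rw [norm_div]
      rw [div_le_div_iff₀ (by linarith) (by positivity)]
      have h0 : 0 < lam0 := by positivity
      nlinarith
    have h4 : ‖(1 - ζ / μ) • (z2 - z1) + (ζ / μ) • (w2 - w1)‖ ≤ c / 2 := by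
      refine (norm_add_le _ _).trans ?_
      rw [norm_smul, norm_smul]
      have h5 : ‖1 - ζ / μ‖ ≤ 1 + 1 / lam0 := by
        refine (norm_sub_le _ _).trans ?_
        rw [norm_one]; linarith
      have h6 : ‖1 - ζ / μ‖ * ‖z2 - z1‖ ≤ (1 + 1 / lam0) * κ :=
        mul_le_mul h5 hz2 (norm_nonneg _) (by positivity)
      have h7 : ‖ζ / μ‖ * ‖w2 - w1‖ ≤ 1 / lam0 * κ :=
        mul_le_mul h3 hw2 (norm_nonneg _) (by positivity)
      have h8 : (1 + 1 / lam0) * κ + 1 / lam0 * κ = c / 2 := by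
        rw [hκ]
        have h0 : 0 < lam0 := by positivity
        field_simp
        ring
      linarith
    constructor
    · have := norm_sub_norm_le (g ζ) (-((1 - ζ / μ) • (z2 - z1) + (ζ / μ) • (w2 - w1)))
      rw [norm_neg, sub_neg_eq_add] at this
      show 1 < ‖g ζ + _‖
      linarith
    · show ‖g ζ + _‖ < 2
      refine lt_of_le_of_lt (norm_add_le _ _) ?_
      linarith
  · show g 0 + ((1 - 0 / μ) • (z2 - z1) + (0 / μ) • (w2 - w1)) = z2
    rw [hg0, zero_div, sub_zero, one_smul, zero_smul, add_zero]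
    abel
  · show g μ + ((1 - μ / μ) • (z2 - z1) + (μ / μ) • (w2 - w1)) = w2
    rw [hgμ, div_self hμne, sub_self, one_smul, zero_smul, zero_add]
    abel
  · exact hμn.symm

end Q72.Shell
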