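import Mathlib
import Pool.Agent.Q72.Shell.Push

set_option autoImplicit false

open Metric Set Filter Topology

namespace Q72.Shell

variable {E : Type*} [NormedAddCommGroup E] [InnerProductSpace ℂ E]

/-- any two points of the shell lie on a disc -/
lemma through_exists {z w : E} (hz : z ∈ shell E) (hw : w ∈ shell E) :
    ∃ t, Through (shell E) z w t := by
  have ha0 : 0 < ‖z‖ := by linarith [hz.1]
  have hb0 : 0 < ‖w‖ := by linarith [hw.1]
  set a := ‖z‖ with ha
  set b := ‖w‖ with hb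
  set u : E := (a : ℂ)⁻¹ • z with hu
  set v : E := (b : ℂ)⁻¹ • w with hv
  have hac : (a : ℂ) ≠ 0 := by exact_mod_cast ha0.ne'
  have hbc : (b : ℂ) ≠ 0 := by exact_mod_cast hb0.ne'
  have hun : ‖u‖ = 1 := by
    rw [hu, norm_smul, norm_inv, Complex.norm_real, Real.norm_of_nonneg ha0.le,
      inv_mul_cancel₀ ha0.ne']
  have hvn : ‖v‖ = 1 := by
    rw [hv, norm_smul, norm_inv, Complex.norm_real, Real.norm_of_nonneg hb0.le,
      inv_mul_cancel₀ hb0.ne']
  clear_value u v
  set α : ℂ := inner ℂ u v with hα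
  set v' : E := v - α • u with hv'
  have huu : inner ℂ u u = (1 : ℂ) := by rw [inner_self_eq_norm_sq_to_K, hun]; simp
  have huv' : inner ℂ u v' = (0 : ℂ) := by
    rw [hv', inner_sub_right, inner_smul_right, huu, ← hα]; ring
  have hpyth : ∀ (c d : ℂ) (y : E), inner ℂ u y = (0 : ℂ) →
      ‖c • u + d • y‖ ^ 2 = ‖c‖ ^ 2 + ‖d‖ ^ 2 * ‖y‖ ^ 2 := by
    intro c d y hy
    have h1 := norm_add_sq_eq_norm_sq_add_norm_sq_of_inner_eq_zero (𝕜 := ℂ) (c • u) (d • y)
      (by rw [inner_smul_left, inner_smul_right, hy]; ring)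
    rw [← sq, ← sq, ← sq, norm_smul, norm_smul, hun, mul_one, mul_pow] at h1
    exact h1
  have hv'n : ‖v'‖ ^ 2 = 1 - ‖α‖ ^ 2 := by
    have h1 := hpyth α 1 v' huv'
    have h2 : α • u + (1 : ℂ) • v' = v := by rw [hv', one_smul]; abel
    rw [h2, hvn, norm_one] at h1
    linarith
  have hα1 : ‖α‖ ≤ 1 := by
    have := norm_inner_le_norm (𝕜 := ℂ) u v
    rwa [hun, hvn, one_mul] at this
  set θ : ℝ := Real.arccos ‖α‖ with hθ
  have hcosθ : Real.cos θ = ‖α‖ := Real.cos_arccos (by linarith [norm_nonneg α]) hα1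
  have hsinθ : Real.sin θ = ‖v'‖ := by
    rw [hθ, Real.sin_arccos, ← hv'n, Real.sqrt_sq (norm_nonneg _)]
  set u' : E := (‖v'‖ : ℂ)⁻¹ • v' with hu'
  have huu' : inner ℂ u u' = (0 : ℂ) := by rw [hu', inner_smul_right, huv', mul_zero]
  have hone : ∀ x : ℝ, Real.cos (θ * x) ^ 2 + Real.sin (θ * x) ^ 2 * ‖u'‖ ^ 2 = 1 := by
    intro x
    by_cases h0 : v' = 0
    · have h1 : ‖α‖ = 1 := by
        rw [h0, norm_zero] at hv'n
        nlinarith [norm_nonneg α]
      have h2 : θ = 0 := by rw [hθ, h1, Real.arccos_one]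
      rw [h2, zero_mul, Real.cos_zero, Real.sin_zero]
      ring
    · have h1 : ‖u'‖ = 1 := by
        rw [hu', norm_smul, norm_inv, Complex.norm_real, norm_norm,
          inv_mul_cancel₀ (norm_ne_zero_iff.2 h0)]
      rw [h1, one_pow, mul_one, Real.cos_sq_add_sin_sq]
  have hsin' : (Real.sin θ : ℂ) • u' = v' := by
    by_cases h0 : v' = 0
    · rw [hu', h0, smul_zero, smul_zero]
    · have : (‖v'‖ : ℂ) ≠ 0 := by exact_mod_cast norm_ne_zero_iff.2 h0
      rw [hsinθ, hu', smul_smul, mul_inv_cancel₀ this, one_smul]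
  set φ : ℝ := α.arg with hφ
  have hαφ : Complex.exp (φ * Complex.I) * (Real.cos θ : ℂ) = α := by
    rw [hcosθ, mul_comm]
    exact Complex.norm_mul_exp_arg_mul_I α
  -- the curve
  set Γ : ℂ → E := fun s =>
    (((a + b : ℝ) : ℂ) / 2 + ((a - b : ℝ) : ℂ) / 2 * Complex.cos (Real.pi * s)) •
      ((Complex.exp (φ * s * Complex.I) * Complex.cos (θ * s)) • u + Complex.sin (θ * s) • u')
    with hΓ
  have hΓd : Differentiable ℂ Γ := by
    rw [hΓ]; fun_prop
  have hΓ0 : Γ 0 = z := by
    simp only [hΓ, mul_zero, zero_mul, Complex.cos_zero, Complex.sin_zero, Complex.exp_zero,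
      zero_smul, add_zero, mul_one, one_smul]
    have e1 : (((a + b : ℝ) : ℂ) / 2 + ((a - b : ℝ) : ℂ) / 2) = (a : ℂ) := by push_cast; ring
    rw [e1, hu, smul_smul, mul_inv_cancel₀ hac, one_smul]
  have hΓ1 : Γ 1 = w := by
    simp only [hΓ, mul_one]
    have e2 : Complex.cos (Real.pi : ℂ) = -1 := Complex.cos_pi
    have e1 : (((a + b : ℝ) : ℂ) / 2 + ((a - b : ℝ) : ℂ) / 2 * (-1)) = (b : ℂ) := by
      push_cast; ring
    rw [e2, e1, ← Complex.ofReal_cos, ← Complex.ofReal_sin, hαφ, hsin']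
    have e3 : α • u + v' = v := by rw [hv']; abel
    rw [e3, hv, smul_smul, mul_inv_cancel₀ hbc, one_smul]
  have hΓr : ∀ x : ℝ, Γ x ∈ shell E := by
    intro x
    have h1 : ‖(Complex.exp (φ * x * Complex.I) * Complex.cos (θ * x)) • u +
        Complex.sin (θ * x) • u'‖ = 1 := by
      have h2 := hpyth (Complex.exp (φ * x * Complex.I) * Complex.cos (θ * x))
        (Complex.sin (θ * x)) u' huu'
      have e1 : (φ : ℂ) * x * Complex.I = ((φ * x : ℝ) : ℂ) * Complex.I := by push_cast; ring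
      have e2 : (θ : ℂ) * x = ((θ * x : ℝ) : ℂ) := by push_cast; ring
      rw [e1, e2, ← Complex.ofReal_cos, ← Complex.ofReal_sin] at h2 ⊢
      rw [norm_mul, Complex.norm_exp_ofReal_mul_I, one_mul, Complex.norm_real, Complex.norm_real,
        Real.norm_eq_abs, Real.norm_eq_abs, sq_abs, sq_abs, hone] at h2
      have h3 := norm_nonneg (((Complex.exp (((φ * x : ℝ) : ℂ) * Complex.I) *
        ((Real.cos (θ * x) : ℝ) : ℂ)) • u) + (((Real.sin (θ * x) : ℝ) : ℂ)) • u')
      nlinarith
    have h2 : ((a + b : ℝ) : ℂ) / 2 + ((a - b : ℝ) : ℂ) / 2 * Complex.cos (Real.pi * x) =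
        (((a + b) / 2 + (a - b) / 2 * Real.cos (Real.pi * x) : ℝ) : ℂ) := by
      push_cast; ring
    have h3 : ‖Γ x‖ = |(a + b) / 2 + (a - b) / 2 * Real.cos (Real.pi * x)| := by
      simp only [hΓ]
      rw [norm_smul, h1, mul_one, h2, Complex.norm_real, Real.norm_eq_abs]
    have hc1 := Real.cos_le_one (Real.pi * x)
    have hc2 := Real.neg_one_le_cos (Real.pi * x)
    set c := Real.cos (Real.pi * x) with hc
    have e3 : (a + b) / 2 + (a - b) / 2 * c = a * ((1 + c) / 2) + b * ((1 - c) / 2) := by ring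
    have p1 : 0 ≤ (1 + c) / 2 := by linarith
    have p2 : 0 ≤ (1 - c) / 2 := by linarith
    have hlow : 1 < a * ((1 + c) / 2) + b * ((1 - c) / 2) := by
      rcases p1.eq_or_lt with h | h
      · have : (1 - c) / 2 = 1 := by linarith
        rw [← h, this]; linarith [hw.1]
      · nlinarith [hz.1, hw.1]
    have hhigh : a * ((1 + c) / 2) + b * ((1 - c) / 2) < 2 := by
      rcases p1.eq_or_lt with h | h
      · have : (1 - c) / 2 = 1 := by linarith
        rw [← h, this]; linarith [hw.2]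
      · nlinarith [hz.2, hw.2]
    constructor
    · show 1 < ‖Γ x‖
      rw [h3, e3, abs_of_pos (by linarith)]
      exact hlow
    · show ‖Γ x‖ < 2
      rw [h3, e3, abs_of_pos (by linarith)]
      exact hhigh
  have := through_of_curve shell_open hΓd (fun x _ => hΓr x)
  rwa [hΓ0, hΓ1] at this

/-- the Lempert function without `tanh⁻¹` -/
noncomputable def mm (z w : E) : ℝ := sInf {t | Through (shell E) z w t}

lemma through_nonneg {D : Set E} {z w : E} {t : ℝ} (h : Through D z w t) : 0 ≤ t ∧ t < 1 := by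
  obtain ⟨φ, α, _, _, hα, _, _, rfl⟩ := h
  exact ⟨norm_nonneg _, hα⟩

lemma mm_le {z w : E} {t : ℝ} (h : Through (shell E) z w t) : mm z w ≤ t :=
  csInf_le ⟨0, fun _ ht => (through_nonneg ht).1⟩ h

lemma le_mm {z w : E} (hz : z ∈ shell E) (hw : w ∈ shell E) {s : ℝ}
    (h : ∀ t, Through (shell E) z w t → s ≤ t) : s ≤ mm z w :=
  le_csInf (through_exists hz hw) h

lemma mm_nonneg {z w : E} (hz : z ∈ shell E) (hw : w ∈ shell E) : 0 ≤ mm z w :=
  le_mm hz hw fun _ ht => (through_nonneg ht).1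

lemma mm_lt_one {z w : E} (hz : z ∈ shell E) (hw : w ∈ shell E) : mm z w < 1 := by
  obtain ⟨t, ht⟩ := through_exists hz hw
  exact lt_of_le_of_lt (mm_le ht) (through_nonneg ht).2

lemma mm_compare {z w z' w' : E} (hz : z ∈ shell E) (hw : w ∈ shell E) (hz' : z' ∈ shell E)
    (hw' : w' ∈ shell E) {r : ℝ} (hr0 : 0 < r) (hr : r < 1)
    (h : ∀ t, t < r → Through (shell E) z w t → Through (shell E) z' w' (t / r)) :
    mm z' w' ≤ mm z w + (1 - r) := by
  have h1 : mm z' w' - (1 - r) ≤ mm z w := by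
    apply le_mm hz hw
    intro t ht
    by_cases htr : t < r
    · have h2 := mm_le (h t htr ht)
      have h3 : t / r ≤ t + (1 - r) := by
        rw [div_le_iff₀ hr0]
        nlinarith
      linarith
    · have := mm_lt_one hz' hw'
      push Not at htr
      linarith
  linarith

lemma mm_continuous {z w : E} (hz : z ∈ shell E) (hw : w ∈ shell E) {ε : ℝ} (hε : 0 < ε) :
    ∃ κ > 0, ∀ z' ∈ shell E, ∀ w' ∈ shell E, ‖z' - z‖ < κ → ‖w' - w‖ < κ →
      |mm z' w' - mm z w| < ε := by
  by_cases hzw : w = z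
  · -- diagonal
    obtain ⟨R, hR, hRD⟩ := Metric.isOpen_iff.1 shell_open z hz
    set e : ℝ := min (ε / 2) (1 / 2) with he
    have he0 : 0 < e := by positivity
    have he1 : e < 1 := lt_of_le_of_lt (min_le_right _ _) (by norm_num)
    have heε : e < ε := lt_of_le_of_lt (min_le_left _ _) (by linarith)
    have h0 : mm z w = 0 := by
      rw [hzw]
      apply le_antisymm
      · apply mm_le
        exact ⟨fun _ => z, 0, differentiableOn_const z, fun _ _ => hz, by simp, rfl, rfl, by simp⟩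
      · exact mm_nonneg hz hz
    refine ⟨min (R / 2) (e * (R / 2) / 2), by positivity, fun z' hz' w' hw' h1 h2 => ?_⟩
    rw [hzw] at h2
    have h3 : ‖w' - z'‖ < e * (R / 2) := by
      have h5 : ‖w' - z'‖ ≤ ‖w' - z‖ + ‖z' - z‖ := by
        have : w' - z' = (w' - z) - (z' - z) := by abel
        rw [this]; exact norm_sub_le _ _
      have h4 : min (R / 2) (e * (R / 2) / 2) ≤ e * (R / 2) / 2 := min_le_right _ _
      linarith
    have h4 := mm_le (through_diag hR hRD he0 he1 (lt_of_lt_of_le h1 (min_le_left _ _)) h3)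
    rw [h0, sub_zero, abs_of_nonneg (mm_nonneg hz' hw')]
    linarith
  · set η : ℝ := min (min ((‖z‖ - 1) / 2) ((2 - ‖z‖) / 2))
      (min (min ((‖w‖ - 1) / 2) ((2 - ‖w‖) / 2)) (min (‖w - z‖ / 2) 1)) with hη
    have hwz : 0 < ‖w - z‖ := norm_pos_iff.2 (sub_ne_zero.2 hzw)
    have hη0 : 0 < η := by
      have h1 := hz.1
      have h2 := hz.2
      have h3 := hw.1
      have h4 := hw.2
      rw [hη]
      refine lt_min (lt_min ?_ ?_) (lt_min (lt_min ?_ ?_) (lt_min ?_ ?_)) <;> linarith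
    have e1 : η ≤ (‖z‖ - 1) / 2 := (min_le_left _ _).trans (min_le_left _ _)
    have e2 : η ≤ (2 - ‖z‖) / 2 := (min_le_left _ _).trans (min_le_right _ _)
    have e3 : η ≤ (‖w‖ - 1) / 2 :=
      (min_le_right _ _).trans ((min_le_left _ _).trans (min_le_left _ _))
    have e4 : η ≤ (2 - ‖w‖) / 2 :=
      (min_le_right _ _).trans ((min_le_left _ _).trans (min_le_right _ _))
    have e5 : η ≤ ‖w - z‖ / 2 :=
      (min_le_right _ _).trans ((min_le_right _ _).trans (min_le_left _ _))
    have e6 : η ≤ 1 := (min_le_right _ _).trans ((min_le_right _ _).trans (min_le_right _ _))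
    set r : ℝ := 1 - min (ε / 2) (1 / 2) with hr
    have hmin0 : 0 < min (ε / 2) (1 / 2 : ℝ) := by positivity
    have hmin1 : min (ε / 2) (1 / 2 : ℝ) ≤ 1 / 2 := min_le_right _ _
    have hmin2 : min (ε / 2) (1 / 2 : ℝ) ≤ ε / 2 := min_le_left _ _
    have hr0 : 0 < r := by linarith
    have hr1 : r < 1 := by linarith
    obtain ⟨κ, hκ, hper⟩ := perturb (E := E) hη0 e6 hr0 hr1
    refine ⟨min κ (η / 2), by positivity, fun z' hz' w' hw' h1 h2 => ?_⟩
    have k1 : ‖z' - z‖ < κ := lt_of_lt_of_le h1 (min_le_left _ _)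
    have k2 : ‖w' - w‖ < κ := lt_of_lt_of_le h2 (min_le_left _ _)
    have k3 : ‖z' - z‖ < η / 2 := lt_of_lt_of_le h1 (min_le_right _ _)
    have k4 : ‖w' - w‖ < η / 2 := lt_of_lt_of_le h2 (min_le_right _ _)
    have n1 : ‖z‖ - η / 2 ≤ ‖z'‖ := by
      have := norm_sub_norm_le z z'
      rw [norm_sub_rev] at this
      linarith
    have n2 : ‖z'‖ ≤ ‖z‖ + η / 2 := by
      have := norm_sub_norm_le z' z
      linarith
    have n3 : ‖w‖ - η / 2 ≤ ‖w'‖ := by
      have := norm_sub_norm_le w w'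
      rw [norm_sub_rev] at this
      linarith
    have n4 : η ≤ ‖w' - z'‖ := by
      have h5 : ‖w - z‖ ≤ ‖w' - z'‖ + ‖w' - w‖ + ‖z' - z‖ := by
        have : w - z = (w' - z') - (w' - w) + (z' - z) := by abel
        rw [this]
        refine (norm_add_le _ _).trans ?_
        have := norm_sub_le (w' - z') (w' - w)
        linarith
      linarith
    have c1 := mm_compare hz hw hz' hw' hr0 hr1 (fun t ht hth =>
      hper z w z' w' (by linarith) (by linarith) (by linarith) (by linarith) k1.le k2.le t ht hth)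
    have c2 := mm_compare hz' hw' hz hw hr0 hr1 (fun t ht hth =>
      hper z' w' z w (by linarith) (by linarith) (by linarith) n4
        (by rw [norm_sub_rev]; exact k1.le) (by rw [norm_sub_rev]; exact k2.le) t ht hth)
    rw [abs_lt]
    constructor <;> linarith

lemma artanh_cont {x : ℝ} (hx : 0 ≤ x) (hx1 : x < 1) : ContinuousAt Real.artanh x := by
  have h1 : ContinuousAt (fun x : ℝ => 1 / 2 * Real.log ((1 + x) / (1 - x))) x := by
    apply ContinuousAt.mul continuousAt_const
    apply ContinuousAt.log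
    · apply ContinuousAt.div (by fun_prop) (by fun_prop)
      linarith
    · have : 0 < (1 + x) / (1 - x) := by apply div_pos <;> linarith
      exact this.ne'
  apply h1.congr
  have h2 : Ioo (-1 : ℝ) 1 ∈ 𝓝 x := isOpen_Ioo.mem_nhds ⟨by linarith, hx1⟩
  filter_upwards [h2] with y hy
  exact (Real.artanh_eq_half_log ⟨hy.1.le, hy.2.le⟩).symm

lemma lempert_eq {z w : E} (hz : z ∈ shell E) (hw : w ∈ shell E) :
    lempert (shell E) z w = Real.artanh (mm z w) := by
  have h0 := mm_nonneg hz hw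
  have h1 := mm_lt_one hz hw
  apply le_antisymm
  · apply le_of_forall_pos_le_add
    intro ε hε
    have hc := (artanh_cont h0 h1).tendsto
    have hc2 := hc.eventually (gt_mem_nhds (show Real.artanh (mm z w) <
      Real.artanh (mm z w) + ε by linarith))
    obtain ⟨δ, hδ, hδs⟩ := Metric.eventually_nhds_iff.1 hc2
    obtain ⟨t, ht, htlt⟩ := exists_lt_of_csInf_lt (through_exists hz hw)
      (show sInf {t | Through (shell E) z w t} < mm z w + δ by
        show mm z w < mm z w + δ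
        linarith)
    have h2 : Real.artanh t < Real.artanh (mm z w) + ε := by
      apply hδs
      rw [Real.dist_eq, abs_of_nonneg (by linarith [mm_le ht])]
      linarith
    refine le_trans ?_ h2.le
    obtain ⟨φ, α, a1, a2, a3, a4, a5, rfl⟩ := ht
    apply csInf_le
    · refine ⟨0, ?_⟩
      rintro _ ⟨φ, α, _, _, hα, _, _, rfl⟩
      rw [← Real.artanh_zero]
      exact Real.artanh_le_artanh (by norm_num) hα (norm_nonneg _)
    · exact ⟨φ, α, a1, a2, a3, a4, a5, rfl⟩
  · apply le_csInf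
    · obtain ⟨t, φ, α, a1, a2, a3, a4, a5, rfl⟩ := through_exists hz hw
      exact ⟨_, φ, α, a1, a2, a3, a4, a5, rfl⟩
    · rintro _ ⟨φ, α, a1, a2, a3, a4, a5, rfl⟩
      apply Real.artanh_le_artanh (by linarith) a3
      exact mm_le ⟨φ, α, a1, a2, a3, a4, a5, rfl⟩

/-- **continuity of the Lempert function of the shell** -/
theorem lempert_continuous :
    ContinuousOn (fun p : E × E => lempert (shell E) p.1 p.2) (shell E ×ˢ shell E) := by
  rintro ⟨z, w⟩ ⟨hz, hw⟩
  have h1 : ContinuousWithinAt (fun p : E × E => mm p.1 p.2) (shell E ×ˢ shell E) (z, w) := by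
    rw [Metric.continuousWithinAt_iff]
    intro ε hε
    obtain ⟨κ, hκ, h⟩ := mm_continuous hz hw hε
    refine ⟨κ, hκ, ?_⟩
    rintro ⟨z', w'⟩ ⟨hz', hw'⟩ hd
    rw [Prod.dist_eq, max_lt_iff] at hd
    rw [Real.dist_eq]
    exact h z' hz' w' hw' (by rw [← dist_eq_norm]; exact hd.1) (by rw [← dist_eq_norm]; exact hd.2)
  have h2 : ContinuousWithinAt (fun p : E × E => Real.artanh (mm p.1 p.2))
      (shell E ×ˢ shell E) (z, w) :=
    ContinuousAt.comp_continuousWithinAt (g := Real.artanh)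
      (f := fun p : E × E => mm p.1 p.2) (x := (z, w))
      (artanh_cont (mm_nonneg hz hw) (mm_lt_one hz hw)) h1
  apply h2.congr
  · rintro ⟨z', w'⟩ ⟨hz', hw'⟩
    exact lempert_eq hz' hw'
  · exact lempert_eq hz hw

end Q72.Shell
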