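import Mathlib
import Pool.Agent.Q72.Shell.Exist

set_option autoImplicit false

open Metric Set Filter Topology
open scoped ContDiff

namespace Q72.Shell

variable {n : ℕ}

/-- `ℂ^(n+2)` -/
abbrev X (n : ℕ) := EuclideanSpace ℂ (Fin (n + 2))

lemma rank_X : 1 < Module.rank ℝ (X n) := by
  apply Module.lt_rank_of_lt_finrank
  rw [finrank_real_of_complex, finrank_euclideanSpace, Fintype.card_fin]
  omega

lemma shell_connected : IsConnected (shell (X n)) := by
  have h1 : (fun p : ℝ × X n => p.1 • p.2) '' (Ioo 1 2 ×ˢ sphere (0 : X n) 1) = shell (X n) := by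
    ext x
    constructor
    · rintro ⟨⟨t, y⟩, ⟨ht, hy⟩, rfl⟩
      rw [mem_sphere, dist_zero_right] at hy
      have : ‖t • y‖ = t := by
        rw [norm_smul, hy, mul_one, Real.norm_of_nonneg (by linarith [ht.1])]
      exact ⟨by rw [this]; exact ht.1, by rw [this]; exact ht.2⟩
    · rintro ⟨h1, h2⟩
      have h0 : ‖x‖ ≠ 0 := by linarith
      refine ⟨(‖x‖, ‖x‖⁻¹ • x), ⟨⟨h1, h2⟩, ?_⟩, ?_⟩
      · rw [mem_sphere, dist_zero_right, norm_smul, norm_inv, norm_norm, inv_mul_cancel₀ h0]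
      · show ‖x‖ • ‖x‖⁻¹ • x = x
        rw [smul_smul, mul_inv_cancel₀ h0, one_smul]
  rw [← h1]
  apply IsConnected.image
  · exact (isConnected_Ioo (by norm_num)).prod (isConnected_sphere rank_X 0 zero_le_one)
  · fun_prop

lemma shell_bounded : Bornology.IsBounded (shell (X n)) := by
  rw [isBounded_iff_forall_norm_le]
  exact ⟨2, fun x hx => hx.2.le⟩

lemma frontier_shell {p : X n} (hp : p ∈ frontier (shell (X n))) : ‖p‖ = 1 ∨ ‖p‖ = 2 := by
  rw [shell_open.frontier_eq] at hp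
  have h1 : closure (shell (X n)) ⊆ {x | 1 ≤ ‖x‖ ∧ ‖x‖ ≤ 2} := by
    apply closure_minimal
    · exact fun x hx => ⟨hx.1.le, hx.2.le⟩
    · exact (isClosed_le continuous_const continuous_norm).inter
        (isClosed_le continuous_norm continuous_const)
  obtain ⟨h2, h3⟩ := h1 hp.1
  by_contra hcon
  push Not at hcon
  exact hp.2 ⟨lt_of_le_of_ne h2 (Ne.symm hcon.1), lt_of_le_of_ne h3 hcon.2⟩

lemma fderiv_ne {c s : ℝ} (hs : s ≠ 0) {q : X n} (hq : q ≠ 0) :
    fderiv ℝ (fun x : X n => c + s * ‖x‖ ^ 2) q ≠ 0 := by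
  intro hf
  have hsm : ContDiff ℝ ∞ (fun x : X n => c + s * ‖x‖ ^ 2) :=
    contDiff_const.add (contDiff_const.mul (contDiff_norm_sq ℂ))
  have hd : DifferentiableAt ℝ (fun x : X n => c + s * ‖x‖ ^ 2) q :=
    (hsm.differentiable (by simp)) q
  have h1 : HasDerivAt (fun t : ℝ => c + s * ‖t • q‖ ^ 2) 0 1 := by
    have h2 : HasFDerivAt (fun x : X n => c + s * ‖x‖ ^ 2)
        (fderiv ℝ (fun x : X n => c + s * ‖x‖ ^ 2) q) ((1 : ℝ) • q) := by
      rw [one_smul]; exact hd.hasFDerivAt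
    have h3 : HasDerivAt (fun t : ℝ => t • q) ((1 : ℝ) • q) 1 :=
      (hasDerivAt_id (1 : ℝ)).smul_const q
    have h4 := h2.comp_hasDerivAt 1 h3
    rw [hf] at h4
    exact h4
  have h2 : HasDerivAt (fun t : ℝ => c + s * (t ^ 2 * ‖q‖ ^ 2)) (s * (2 * ‖q‖ ^ 2)) 1 := by
    have e1 := (((hasDerivAt_pow 2 (1 : ℝ)).mul_const (‖q‖ ^ 2)).const_mul s).const_add c
    exact e1.congr_deriv (by norm_num)
  have h3 : (fun t : ℝ => c + s * ‖t • q‖ ^ 2) = fun t : ℝ => c + s * (t ^ 2 * ‖q‖ ^ 2) := by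
    funext t
    rw [norm_smul, mul_pow, Real.norm_eq_abs, sq_abs]
  rw [h3] at h1
  have h4 := h1.unique h2
  have h5 : 0 < ‖q‖ := norm_pos_iff.2 hq
  have h6 : s * (2 * ‖q‖ ^ 2) ≠ 0 := mul_ne_zero hs (by positivity)
  exact h6 h4.symm

lemma shell_smooth : Q72.QTI.HasSmoothBoundary (shell (X n)) := by
  intro p hp
  rcases frontier_shell hp with h | h
  · refine ⟨ball 0 (3 / 2), fun x => 1 + (-1) * ‖x‖ ^ 2, isOpen_ball, ?_, ?_, ?_, ?_⟩
    · rw [mem_ball, dist_zero_right, h]; norm_num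
    · exact (contDiff_const.add (contDiff_const.mul (contDiff_norm_sq ℂ))).contDiffOn
    · ext x
      simp only [mem_inter_iff, mem_ofPred_eq, mem_ball, dist_zero_right]
      constructor
      · rintro ⟨hx, hx2⟩
        refine ⟨hx2, ?_⟩
        have := hx.1
        nlinarith
      · rintro ⟨hx, hx2⟩
        refine ⟨⟨?_, by linarith⟩, hx⟩
        have h0 := norm_nonneg x
        by_contra hcon
        push Not at hcon
        nlinarith
    · rintro q ⟨hq, hqU⟩
      apply fderiv_ne (by norm_num)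
      rcases frontier_shell hq with h' | h' <;> exact norm_pos_iff.1 (by rw [h']; norm_num)
  · refine ⟨{x | 3 / 2 < ‖x‖}, fun x => -4 + 1 * ‖x‖ ^ 2,
      isOpen_lt continuous_const continuous_norm, ?_, ?_, ?_, ?_⟩
    · show 3 / 2 < ‖p‖
      rw [h]; norm_num
    · exact (contDiff_const.add (contDiff_const.mul (contDiff_norm_sq ℂ))).contDiffOn
    · ext x
      simp only [mem_inter_iff, mem_ofPred_eq]
      constructor
      · rintro ⟨hx, hx2⟩
        refine ⟨hx2, ?_⟩
        have h1 := hx.1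
        have h2 := hx.2
        nlinarith
      · rintro ⟨hx, hx2⟩
        refine ⟨⟨by linarith, ?_⟩, hx⟩
        by_contra hcon
        push Not at hcon
        nlinarith
    · rintro q ⟨hq, hqU⟩
      apply fderiv_ne (by norm_num)
      rcases frontier_shell hq with h' | h' <;> exact norm_pos_iff.1 (by rw [h']; norm_num)

lemma norm_ab (t : ℝ) (ζ : ℂ) :
    ‖(PiLp.single 2 0 (t : ℂ) : X n) + ζ • (PiLp.single 2 1 (1 : ℂ) : X n)‖ ^ 2 =
      t ^ 2 + ‖ζ‖ ^ 2 := by
  have hin : inner ℂ (PiLp.single 2 0 (t : ℂ) : X n) (ζ • (PiLp.single 2 1 (1 : ℂ) : X n)) =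
      (0 : ℂ) := by
    rw [inner_smul_right, EuclideanSpace.inner_single_left, PiLp.single_apply]
    simp
  have h1 := norm_add_sq_eq_norm_sq_add_norm_sq_of_inner_eq_zero (𝕜 := ℂ) _ _ hin
  rw [← sq, ← sq, ← sq] at h1
  rw [h1, norm_smul, PiLp.norm_single, PiLp.norm_single, norm_one, mul_one, Complex.norm_real,
    Real.norm_eq_abs, sq_abs]

lemma shell_not_pseudoconvex : ¬ Q72.QTI.IsPseudoconvex (shell (X n)) := by
  rintro ⟨_, u, hu, hpsh, hexh⟩
  set a : ℝ → X n := fun t => PiLp.single 2 0 (t : ℂ) with ha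
  set b : X n := PiLp.single 2 1 (1 : ℂ) with hb
  have hnorm : ∀ (t : ℝ) (ζ : ℂ), ‖a t + ζ • b‖ ^ 2 = t ^ 2 + ‖ζ‖ ^ 2 := fun t ζ => norm_ab t ζ
  have hdisc : ∀ t : ℝ, 1 < t → t ≤ 3 / 2 → ∀ ζ ∈ closedBall (0 : ℂ) 1,
      a t + ζ • b ∈ shell (X n) := by
    intro t ht1 ht2 ζ hζ
    rw [mem_closedBall, dist_zero_right] at hζ
    have h1 := hnorm t ζ
    have h0 := norm_nonneg (a t + ζ • b)
    have h0' := norm_nonneg ζ
    constructor
    · by_contra hcon
      push Not at hcon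
      nlinarith
    · by_contra hcon
      push Not at hcon
      nlinarith
  set K : Set (X n) := {x | 2 ≤ ‖x‖ ^ 2 ∧ ‖x‖ ^ 2 ≤ 13 / 4} with hK
  have hKD : K ⊆ shell (X n) := by
    rintro x ⟨h1, h2⟩
    have h0 := norm_nonneg x
    constructor
    · by_contra hcon
      push Not at hcon
      nlinarith
    · by_contra hcon
      push Not at hcon
      nlinarith
  have hKc : IsCompact K := by
    apply Metric.isCompact_of_isClosed_isBounded
    · exact (isClosed_le continuous_const (continuous_norm.pow 2)).inter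
        (isClosed_le (continuous_norm.pow 2) continuous_const)
    · exact shell_bounded.subset hKD
  obtain ⟨M, hM⟩ := hKc.exists_bound_of_continuousOn (hu.mono hKD)
  have hle : ∀ t : ℝ, 1 < t → t ≤ 3 / 2 → u (a t) ≤ M := by
    intro t ht1 ht2
    have h1 := hpsh (a t) b (hdisc t ht1 ht2)
    refine h1.trans (Real.circleAverage_mono_on_of_le_circle ?_ ?_)
    · apply ContinuousOn.circleIntegrable zero_le_one
      apply hu.comp (by fun_prop : Continuous fun ζ : ℂ => a t + ζ • b).continuousOn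
      intro ζ hζ
      exact hdisc t ht1 ht2 ζ (sphere_subset_closedBall hζ)
    · intro ζ hζ
      rw [abs_one, mem_sphere, dist_zero_right] at hζ
      have h2 : a t + ζ • b ∈ K := by
        show 2 ≤ ‖a t + ζ • b‖ ^ 2 ∧ ‖a t + ζ • b‖ ^ 2 ≤ 13 / 4
        rw [hnorm, hζ]
        constructor <;> nlinarith
      exact (le_abs_self _).trans (hM _ h2)
  have hcl : IsClosed {z ∈ shell (X n) | u z ≤ M} := (hexh M).isClosed
  have hac : Continuous a := by
    have : ∀ t : ℝ, a t = t • (PiLp.single 2 0 (1 : ℂ) : X n) := by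
      intro t
      ext i
      simp only [ha, PiLp.smul_apply, PiLp.single_apply]
      split_ifs <;> simp
    rw [show a = fun t : ℝ => t • (PiLp.single 2 0 (1 : ℂ) : X n) from funext this]
    fun_prop
  have hlim : Tendsto a (𝓝[>] 1) (𝓝 (a 1)) := (hac.tendsto 1).mono_left nhdsWithin_le_nhds
  have hev : ∀ᶠ t in 𝓝[>] (1 : ℝ), a t ∈ {z ∈ shell (X n) | u z ≤ M} := by
    have h1 : Ioo (1 : ℝ) (3 / 2) ∈ 𝓝[>] (1 : ℝ) := Ioo_mem_nhdsGT (by norm_num)
    filter_upwards [h1] with t ht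
    refine ⟨?_, hle t ht.1 ht.2.le⟩
    have := hdisc t ht.1 ht.2.le 0 (by simp)
    simpa using this
  have hmem := hcl.mem_of_tendsto hlim hev
  have h1 := hmem.1.1
  have h2 := hnorm 1 0
  rw [zero_smul, add_zero] at h2
  have h3 : ‖a 1‖ ^ 2 = 1 := by rw [h2]; norm_num
  nlinarith

end Q72.Shell
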